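import Mathlib

/-!
# The cardinal complexity of the game of googol is linear

For all `δ, ε > 0` and all large `n` there is an instance on `n`-subsets of `{1, …, N}` with
`N ≤ (1 + δ) n` under which no online cardinal algorithm wins with probability more than `1/e + ε`.

The instance draws `M ∈ {n, …, N}` with probability proportional to `1 / (M + 1)` and then a uniformly
random `n`-subset of `{1, …, M}`.
-/

set_option autoImplicit false

namespace Pool.Agent.Results.MP_d38296_lc.LinearRange

open Finset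

/-- `D` is a probability distribution on the `n`-element subsets of `{1, …, N}`. -/
def IsInstance (n N : ℕ) (D : Finset ℕ → ℝ) : Prop :=
  (∀ S, 0 ≤ D S) ∧ (∀ S, D S ≠ 0 → S ∈ (Icc 1 N).powersetCard n) ∧
    ∑ S ∈ (Icc 1 N).powersetCard n, D S = 1

/-- A (randomized) online algorithm is given by the probabilities `q h` of stopping on the value just
seen, given that the algorithm has not stopped before; `h` is the list of all the values seen so far,
the latest value first. -/
def IsAlgorithm (q : List ℕ → ℝ) : Prop := ∀ h, 0 ≤ q h ∧ q h ≤ 1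

/-- The probability that the algorithm `q`, which has not stopped on the values `h` seen so far, stops
on the value `m` if the remaining values arrive in the given order. -/
def winFrom (q : List ℕ → ℝ) (m : ℕ) : List ℕ → List ℕ → ℝ
  | _, [] => 0
  | h, y :: l => q (y :: h) * (if y = m then 1 else 0) + (1 - q (y :: h)) * winFrom q m (y :: h) l

/-- The possible arrival orders of an `n`-element set `A`: injective maps from `{0, …, n - 1}` to
`A`. -/
def orders (n : ℕ) (A : Finset ℕ) : Finset (Fin n → ℕ) :=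
  (Fintype.piFinset fun _ => A).filter Function.Injective

/-- The probability that the algorithm `q` stops on the maximum of `S`, if `S` is drawn from `D` and
the elements of `S` arrive in a uniformly random order. -/
noncomputable def winProb (n N : ℕ) (D : Finset ℕ → ℝ) (q : List ℕ → ℝ) : ℝ :=
  ∑ S ∈ (Icc 1 N).powersetCard n,
    D S * ((∑ s ∈ orders n S, winFrom q (S.sup id) [] (List.ofFn s)) / n.factorial)

/-! ### Sums over extensions -/

/-- The sum of `F` over all lists of `k` distinct elements of `A`. -/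
def ext : ℕ → Finset ℕ → (List ℕ → ℝ) → ℝ
  | 0, _, F => F []
  | k + 1, A, F => ∑ y ∈ A, ext k (A.erase y) fun r => F (y :: r)

lemma ext_zero (A : Finset ℕ) (F : List ℕ → ℝ) : ext 0 A F = F [] := rfl

lemma ext_succ (k : ℕ) (A : Finset ℕ) (F : List ℕ → ℝ) :
    ext (k + 1) A F = ∑ y ∈ A, ext k (A.erase y) fun r => F (y :: r) := rfl

lemma sum_orders_eq_ext (n : ℕ) : ∀ (A : Finset ℕ) (F : List ℕ → ℝ),
    ∑ s ∈ orders n A, F (List.ofFn s) = ext n A F := by
  induction n with
  | zero =>
    intro A F
    rw [ext_zero]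
    have h : orders 0 A = {Fin.elim0} := by
      ext s
      unfold orders
      rw [mem_filter, Fintype.mem_piFinset, mem_singleton]
      constructor
      · intro _
        exact Subsingleton.elim _ _
      · rintro rfl
        exact ⟨fun i => i.elim0, fun i => i.elim0⟩
    rw [h, sum_singleton]
    rfl
  | succ n ih =>
    intro A F
    rw [ext_succ]
    have h1 : ∀ y ∈ A, ext n (A.erase y) (fun r => F (y :: r)) =
        ∑ s ∈ orders n (A.erase y), F (y :: List.ofFn s) := fun y _ => (ih _ _).symm
    rw [sum_congr rfl h1, sum_sigma']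
    symm
    apply sum_bij' (fun (p : (_ : ℕ) × (Fin n → ℕ)) _ => (Fin.cons p.1 p.2 : Fin (n + 1) → ℕ))
      (fun (s : Fin (n + 1) → ℕ) _ => (⟨s 0, fun i => s i.succ⟩ : (_ : ℕ) × (Fin n → ℕ)))
    · rintro ⟨y, s⟩ hp
      rw [mem_sigma] at hp
      obtain ⟨hy, hs⟩ := hp
      unfold orders at hs ⊢
      rw [mem_filter, Fintype.mem_piFinset] at hs ⊢
      obtain ⟨hs1, hs2⟩ := hs
      refine ⟨fun i => ?_, ?_⟩
      · refine Fin.cases ?_ (fun j => ?_) i
        · exact hy
        · exact mem_of_mem_erase (hs1 j)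
      · rw [Fin.cons_injective_iff]
        refine ⟨?_, hs2⟩
        rintro ⟨j, hj⟩
        exact (mem_erase.1 (hs1 j)).1 hj
    · intro s hs
      unfold orders at hs
      rw [mem_filter, Fintype.mem_piFinset] at hs
      obtain ⟨hs1, hs2⟩ := hs
      rw [mem_sigma]
      refine ⟨hs1 0, ?_⟩
      unfold orders
      rw [mem_filter, Fintype.mem_piFinset]
      refine ⟨fun i => mem_erase.2 ⟨fun h => ?_, hs1 _⟩, fun i j hij => ?_⟩
      · exact absurd (hs2 h) (Fin.succ_ne_zero i)
      · exact Fin.succ_injective _ (hs2 hij)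
    · rintro ⟨y, s⟩ _
      rfl
    · intro s _
      exact Fin.cons_self_tail s
    · rintro ⟨y, s⟩ _
      simp only
      rw [List.ofFn_cons]

lemma ext_le (k : ℕ) : ∀ (A : Finset ℕ) (F G : List ℕ → ℝ),
    (∀ r : List ℕ, r.length = k → r.Nodup → (∀ z ∈ r, z ∈ A) → F r ≤ G r) →
      ext k A F ≤ ext k A G := by
  induction k with
  | zero =>
    intro A F G h
    exact h [] rfl List.nodup_nil (by simp)
  | succ k ih =>
    intro A F G h
    rw [ext_succ, ext_succ]
    apply sum_le_sum
    intro y hy
    apply ih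
    intro r h1 h2 h3
    apply h
    · simp [h1]
    · rw [List.nodup_cons]
      exact ⟨fun hm => (mem_erase.1 (h3 y hm)).1 rfl, h2⟩
    · intro z hz
      rw [List.mem_cons] at hz
      rcases hz with rfl | hz
      · exact hy
      · exact mem_of_mem_erase (h3 z hz)

lemma ext_congr {k : ℕ} {A : Finset ℕ} {F G : List ℕ → ℝ}
    (h : ∀ r : List ℕ, r.length = k → r.Nodup → (∀ z ∈ r, z ∈ A) → F r = G r) :
    ext k A F = ext k A G :=
  le_antisymm (ext_le k A F G fun r a b c => (h r a b c).le)
    (ext_le k A G F fun r a b c => (h r a b c).ge)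

lemma ext_nonneg {k : ℕ} {A : Finset ℕ} {F : List ℕ → ℝ} (h : ∀ r, 0 ≤ F r) : 0 ≤ ext k A F := by
  induction k generalizing A F with
  | zero => exact h _
  | succ k ih => exact sum_nonneg fun y _ => ih fun r => h _

lemma ext_add (k : ℕ) : ∀ (A : Finset ℕ) (F G : List ℕ → ℝ),
    ext k A (fun r => F r + G r) = ext k A F + ext k A G := by
  induction k with
  | zero => intro A F G; rfl
  | succ k ih =>
    intro A F G
    rw [ext_succ, ext_succ, ext_succ, ← sum_add_distrib]
    exact sum_congr rfl fun y _ => ih _ _ _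

lemma ext_mul (k : ℕ) (c : ℝ) : ∀ (A : Finset ℕ) (F : List ℕ → ℝ),
    ext k A (fun r => c * F r) = c * ext k A F := by
  induction k with
  | zero => intro A F; rfl
  | succ k ih =>
    intro A F
    rw [ext_succ, ext_succ, mul_sum]
    exact sum_congr rfl fun y _ => ih _ _

lemma ext_sum {ι : Type*} (I : Finset ι) (k : ℕ) : ∀ (A : Finset ℕ) (F : ι → List ℕ → ℝ),
    ext k A (fun r => ∑ i ∈ I, F i r) = ∑ i ∈ I, ext k A (F i) := by
  induction k with
  | zero => intro A F; rfl
  | succ k ih =>
    intro A F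
    have h : ∀ i ∈ I, ext (k + 1) A (F i) = ∑ y ∈ A, ext k (A.erase y) fun r => F i (y :: r) :=
      fun i _ => ext_succ _ _ _
    rw [ext_succ, sum_congr rfl h, sum_comm]
    exact sum_congr rfl fun y _ => ih _ _

/-- The number of the lists of `k` distinct elements of `A` with the property `P`. -/
lemma ext_ind (c : ℝ) (P : ℕ → Prop) [DecidablePred P] (k : ℕ) : ∀ A : Finset ℕ,
    ext k A (fun r => if ∀ z ∈ r, P z then c else 0) = c * (A.filter P).card.descFactorial k := by
  induction k with
  | zero =>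
    intro A
    rw [ext_zero]
    simp
  | succ k ih =>
    intro A
    rw [ext_succ]
    have h1 : ∀ y ∈ A, ext k (A.erase y) (fun r => if ∀ z ∈ y :: r, P z then c else 0) =
        if P y then c * (((A.filter P).card - 1).descFactorial k : ℝ) else 0 := by
      intro y hy
      by_cases hP : P y
      · rw [if_pos hP]
        have h2 : ((A.erase y).filter P).card = (A.filter P).card - 1 := by
          rw [filter_erase, card_erase_of_mem (mem_filter.2 ⟨hy, hP⟩)]
        rw [← h2, ← ih]
        apply ext_congr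
        intro r _ _ _
        simp [hP]
      · rw [if_neg hP]
        have h2 : ext k (A.erase y) (fun r => if ∀ z ∈ y :: r, P z then c else 0) =
            ext k (A.erase y) (fun r => 0 * (1 : ℝ)) := by
          apply ext_congr
          intro r _ _ _
          simp [hP]
        rw [h2, ext_mul, zero_mul]
    rw [sum_congr rfl h1, ← sum_filter, sum_const, nsmul_eq_mul]
    rcases Nat.eq_zero_or_pos (A.filter P).card with h0 | h0
    · rw [h0]
      simp
    · obtain ⟨m, hm⟩ : ∃ m, (A.filter P).card = m + 1 := ⟨_, (Nat.succ_pred_eq_of_pos h0).symm⟩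
      rw [hm, Nat.succ_descFactorial_succ]
      push_cast
      ring


/-! ### Maxima of lists -/

/-- The maximum of a list. -/
def mx (l : List ℕ) : ℕ := l.foldr max 0

lemma mx_cons (y : ℕ) (l : List ℕ) : mx (y :: l) = max y (mx l) := rfl

lemma mx_le {l : List ℕ} {M : ℕ} : mx l ≤ M ↔ ∀ z ∈ l, z ≤ M := by
  induction l with
  | nil => simp [mx]
  | cons y l ih => rw [mx_cons, max_le_iff, ih]; simp

lemma le_mx {l : List ℕ} {z : ℕ} (hz : z ∈ l) : z ≤ mx l := mx_le.1 le_rfl z hz

lemma mx_mem {l : List ℕ} (h : mx l ≠ 0) : mx l ∈ l := by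
  induction l with
  | nil => simp [mx] at h
  | cons y l ih =>
    rw [mx_cons] at h ⊢
    rcases le_total y (mx l) with h1 | h1
    · rw [max_eq_right h1] at h ⊢
      exact List.mem_cons_of_mem _ (ih h)
    · rw [max_eq_left h1]
      exact List.mem_cons_self

lemma mx_congr {l l' : List ℕ} (h : ∀ z, z ∈ l ↔ z ∈ l') : mx l = mx l' := by
  apply le_antisymm
  · exact mx_le.2 fun z hz => le_mx ((h z).1 hz)
  · exact mx_le.2 fun z hz => le_mx ((h z).2 hz)

lemma mx_toFinset (S : Finset ℕ) (l : List ℕ) (h : ∀ z, z ∈ S ↔ z ∈ l) : S.sup id = mx l := by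
  apply le_antisymm
  · exact Finset.sup_le fun z hz => le_mx ((h z).1 hz)
  · exact mx_le.2 fun z hz => Finset.le_sup (f := id) ((h z).2 hz)

/-- The values which are still available after the history `h`. -/
def avail (N : ℕ) (h : List ℕ) : Finset ℕ := Icc 1 N \ h.toFinset

/-- Histories. -/
def Valid (N : ℕ) (h : List ℕ) : Prop := h.Nodup ∧ ∀ z ∈ h, z ∈ Icc 1 N

lemma mem_avail {N : ℕ} {h : List ℕ} {y : ℕ} : y ∈ avail N h ↔ y ∈ Icc 1 N ∧ y ∉ h := by
  unfold avail
  rw [mem_sdiff, List.mem_toFinset]

lemma avail_cons (N : ℕ) (h : List ℕ) (y : ℕ) : avail N (y :: h) = (avail N h).erase y := by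
  ext z
  rw [mem_avail, mem_erase, mem_avail, List.mem_cons]
  tauto

lemma valid_cons {N : ℕ} {h : List ℕ} {y : ℕ} (hh : Valid N h) (hy : y ∈ avail N h) :
    Valid N (y :: h) := by
  rw [mem_avail] at hy
  refine ⟨List.nodup_cons.2 ⟨hy.2, hh.1⟩, ?_⟩
  intro z hz
  rw [List.mem_cons] at hz
  rcases hz with rfl | hz
  · exact hy.1
  · exact hh.2 z hz

lemma valid_append {N : ℕ} {h r : List ℕ} (hh : Valid N h) (h1 : r.Nodup)
    (h2 : ∀ z ∈ r, z ∈ avail N h) : Valid N (r.reverse ++ h) := by
  refine ⟨?_, ?_⟩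
  · rw [List.nodup_append]
    refine ⟨List.nodup_reverse.2 h1, hh.1, ?_⟩
    intro a ha b hb hab
    rw [List.mem_reverse] at ha
    have := (mem_avail.1 (h2 a ha)).2
    rw [hab] at this
    exact this hb
  · intro z hz
    rw [List.mem_append, List.mem_reverse] at hz
    rcases hz with hz | hz
    · exact (mem_avail.1 (h2 z hz)).1
    · exact hh.2 z hz

lemma card_avail_le {N x : ℕ} {h : List ℕ} (hh : Valid N h) (hx : mx h ≤ x) (hxN : x ≤ N) :
    ((avail N h).filter fun z => z ≤ x).card = x - h.length := by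
  have h1 : (avail N h).filter (fun z => z ≤ x) = Icc 1 x \ h.toFinset := by
    ext z
    rw [mem_filter, mem_avail, mem_sdiff, List.mem_toFinset, mem_Icc, mem_Icc]
    constructor
    · rintro ⟨⟨⟨h1, _⟩, h3⟩, h4⟩
      exact ⟨⟨h1, h4⟩, h3⟩
    · rintro ⟨⟨h1, h4⟩, h3⟩
      exact ⟨⟨⟨h1, h4.trans hxN⟩, h3⟩, h4⟩
  rw [h1, card_sdiff_of_subset, List.toFinset_card_of_nodup hh.1, Nat.card_Icc, Nat.add_sub_cancel]
  intro z hz
  rw [List.mem_toFinset] at hz
  rw [mem_Icc]
  exact ⟨(mem_Icc.1 (hh.2 z hz)).1, (le_mx hz).trans hx⟩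

lemma length_le {N : ℕ} {h : List ℕ} (hh : Valid N h) : h.length ≤ mx h := by
  rw [← List.toFinset_card_of_nodup hh.1]
  have : h.toFinset ⊆ Icc 1 (mx h) := by
    intro z hz
    rw [List.mem_toFinset] at hz
    rw [mem_Icc]
    exact ⟨(mem_Icc.1 (hh.2 z hz)).1, le_mx hz⟩
  have h2 := card_le_card this
  rwa [Nat.card_Icc, Nat.add_sub_cancel] at h2

/-! ### Telescoping sums -/

lemma tel {j M : ℕ} (hj : 1 ≤ j) (hM : j ≤ M) :
    (1 : ℝ) / (M + 1).descFactorial (j + 1) =
      1 / j * (1 / M.descFactorial j - 1 / (M + 1).descFactorial j) := by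
  have ha : (0 : ℝ) < M.descFactorial j := by exact_mod_cast Nat.descFactorial_pos.2 hM
  have hb : (0 : ℝ) < (M + 1).descFactorial j := by
    exact_mod_cast Nat.descFactorial_pos.2 (hM.trans (Nat.le_succ M))
  have hj' : (0 : ℝ) < j := by exact_mod_cast hj
  have h1 : ((M + 1).descFactorial (j + 1) : ℝ) = (M + 1) * M.descFactorial j := by
    rw [Nat.succ_descFactorial_succ]
    push_cast
    ring
  have h2 : ((M : ℝ) + 1 - j) * (M + 1).descFactorial j = (M + 1) * M.descFactorial j := by
    have h3 := Nat.succ_descFactorial M j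
    have h4 : ((M + 1 - j : ℕ) : ℝ) = (M : ℝ) + 1 - j := by
      rw [Nat.cast_sub (hM.trans (Nat.le_succ M))]
      push_cast
      ring
    rw [← h4]
    exact_mod_cast h3
  rw [h1]
  have hM1 : (0 : ℝ) < M + 1 := by positivity
  have h5 : (1 : ℝ) / M.descFactorial j = (M + 1) / ((M + 1) * M.descFactorial j) := by
    field_simp
  have h6 : (1 : ℝ) / (M + 1).descFactorial j = ((M : ℝ) + 1 - j) / ((M + 1) * M.descFactorial j) := by
    rw [← h2]
    have h7 : (M : ℝ) + 1 - j ≠ 0 := by
      have : (j : ℝ) ≤ M := by exact_mod_cast hM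
      linarith
    field_simp
  rw [h5, h6, ← sub_div]
  field_simp
  ring

lemma tel_sum {j x : ℕ} (hj : 1 ≤ j) (hx : j ≤ x) (K : ℕ) :
    ∑ M ∈ Ico x K, (1 : ℝ) / (M + 1).descFactorial (j + 1) ≤ 1 / (j * x.descFactorial j) := by
  rw [sum_Ico_eq_sum_range]
  have h : ∀ k : ℕ, ∑ i ∈ range k, (1 : ℝ) / (x + i + 1).descFactorial (j + 1) =
      1 / j * (1 / x.descFactorial j - 1 / (x + k).descFactorial j) := by
    intro k
    induction k with
    | zero => simp
    | succ k ih =>
      rw [sum_range_succ, ih, tel hj (by omega : j ≤ x + k), ← add_assoc]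
      ring
  rw [h]
  have hj' : (0 : ℝ) < j := by exact_mod_cast hj
  have h1 : (0 : ℝ) ≤ 1 / (x + (K - x)).descFactorial j := by positivity
  calc 1 / (j : ℝ) * (1 / x.descFactorial j - 1 / (x + (K - x)).descFactorial j)
      ≤ 1 / (j : ℝ) * (1 / x.descFactorial j) :=
        mul_le_mul_of_nonneg_left (by linarith) (by positivity)
    _ = 1 / (j * x.descFactorial j) := by rw [one_div_mul_one_div]

/-! ### The weights -/

/-- The (unnormalised) probability of an arrival order with maximum `y`. -/
noncomputable def oy (n N y : ℕ) : ℝ :=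
  ∑ M ∈ Ico n (N + 1), if y ≤ M then (1 : ℝ) / (M + 1).descFactorial (n + 1) else 0

/-- The weight of a history of length `j` with maximum `x`. -/
noncomputable def G (n j x : ℕ) : ℝ := if n ≤ x then 1 / (j * x.descFactorial j) else 0

lemma oy_nonneg (n N y : ℕ) : 0 ≤ oy n N y := by
  unfold oy
  apply sum_nonneg
  intro M _
  split_ifs
  · positivity
  · exact le_rfl

lemma G_nonneg (n j x : ℕ) : 0 ≤ G n j x := by
  unfold G
  split_ifs
  · positivity
  · exact le_rfl

lemma oy_le {n N y : ℕ} (hn : 1 ≤ n) (hy : n ≤ y) : oy n N y ≤ 1 / (n * y.descFactorial n) := by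
  unfold oy
  rw [← sum_filter]
  have h : (Ico n (N + 1)).filter (fun M => y ≤ M) ⊆ Ico y (N + 1) := by
    intro M hM
    rw [mem_filter, mem_Ico] at hM
    rw [mem_Ico]
    exact ⟨hM.2, hM.1.2⟩
  refine (sum_le_sum_of_subset_of_nonneg h fun _ _ _ => by positivity).trans ?_
  exact tel_sum hn hy _

/-- The weight of the event that the history is `y :: h` and `y` is the maximum of all values. -/
noncomputable def ww (n N k y : ℕ) (h : List ℕ) : ℝ :=
  ext k (avail N (y :: h)) fun r => if mx (r ++ y :: h) = y then oy n N y else 0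

lemma ww_nonneg (n N k y : ℕ) (h : List ℕ) : 0 ≤ ww n N k y h := by
  unfold ww
  apply ext_nonneg
  intro r
  split_ifs
  · exact oy_nonneg _ _ _
  · exact le_rfl

lemma ww_le {n N k y : ℕ} {h : List ℕ} (hh : Valid N (y :: h)) (hk : h.length + 1 + k = n) :
    ww n N k y h ≤
      if mx h < y then ((h.length + 1 : ℕ) : ℝ) / n * G n (h.length + 1) y else 0 := by
  have hn : 1 ≤ n := by omega
  have hnR : (0 : ℝ) < n := by exact_mod_cast hn
  by_cases hlt : mx h < y
  · rw [if_pos hlt]
    have hmx : mx (y :: h) = y := by rw [mx_cons, max_eq_left hlt.le]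
    have hlen := length_le hh
    rw [hmx, List.length_cons] at hlen
    have hyN : y ≤ N := (mem_Icc.1 (hh.2 y List.mem_cons_self)).2
    have h1 : ww n N k y h ≤
        ext k (avail N (y :: h)) fun r => if ∀ z ∈ r, z ≤ y then oy n N y else 0 := by
      unfold ww
      apply ext_le
      intro r _ _ _
      by_cases h2 : mx (r ++ y :: h) = y
      · rw [if_pos h2, if_pos]
        intro z hz
        rw [← h2]
        exact le_mx (List.mem_append_left _ hz)
      · rw [if_neg h2]
        split_ifs
        · exact oy_nonneg _ _ _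
        · exact le_rfl
    rw [ext_ind, card_avail_le hh (le_of_eq hmx) hyN, List.length_cons] at h1
    refine h1.trans ?_
    by_cases hyn : n ≤ y
    · unfold G
      rw [if_pos hyn]
      have h2 := Nat.descFactorial_mul_descFactorial (n := y) (show h.length + 1 ≤ n by omega)
      have h3 : n - (h.length + 1) = k := by omega
      rw [h3] at h2
      have h4 : ((y - (h.length + 1)).descFactorial k : ℝ) * y.descFactorial (h.length + 1) =
          y.descFactorial n := by exact_mod_cast h2
      have h5 : (0 : ℝ) < y.descFactorial (h.length + 1) := by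
        exact_mod_cast Nat.descFactorial_pos.2 hlen
      have h6 : (0 : ℝ) < y.descFactorial n := by exact_mod_cast Nat.descFactorial_pos.2 hyn
      have h7 : (0 : ℝ) < ((h.length + 1 : ℕ) : ℝ) := by positivity
      calc oy n N y * ((y - (h.length + 1)).descFactorial k : ℝ)
          ≤ 1 / (n * y.descFactorial n) * ((y - (h.length + 1)).descFactorial k : ℝ) :=
            mul_le_mul_of_nonneg_right (oy_le hn hyn) (by positivity)
        _ = ((h.length + 1 : ℕ) : ℝ) / n *
              (1 / (((h.length + 1 : ℕ) : ℝ) * y.descFactorial (h.length + 1))) := by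
            rw [← h4]
            have h8 : ((y - (h.length + 1)).descFactorial k : ℝ) ≠ 0 := by
              intro h0
              rw [h0, zero_mul] at h4
              exact h6.ne h4
            field_simp
    · have h2 : (y - (h.length + 1)).descFactorial k = 0 :=
        Nat.descFactorial_of_lt (by omega)
      rw [h2, Nat.cast_zero, mul_zero]
      exact mul_nonneg (by positivity) (G_nonneg _ _ _)
  · rw [if_neg hlt]
    have h1 : ww n N k y h = ext k (avail N (y :: h)) fun _ => 0 * (1 : ℝ) := by
      unfold ww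
      apply ext_congr
      intro r _ _ _
      rw [zero_mul, if_neg]
      intro h2
      have hy1 : 1 ≤ y := (mem_Icc.1 (hh.2 y List.mem_cons_self)).1
      have h3 : y ∉ h := (List.nodup_cons.1 hh.1).1
      have h4 : mx h ∈ h := mx_mem (by omega)
      have h5 : mx h ≤ mx (r ++ y :: h) := le_mx (by simp [h4])
      have h6 : mx h = y := by omega
      rw [h6] at h4
      exact h3 h4
    rw [h1, ext_mul, zero_mul]

lemma ww_le' {n N k y : ℕ} {h : List ℕ} (hh : Valid N (y :: h)) (hk : h.length + 1 + k = n) :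
    ww n N k y h ≤ ((h.length + 1 : ℕ) : ℝ) / n * G n (h.length + 1) (mx (y :: h)) := by
  refine (ww_le hh hk).trans ?_
  split_ifs with hlt
  · rw [mx_cons, max_eq_left hlt.le]
  · exact mul_nonneg (by positivity) (G_nonneg _ _ _)

/-- The weight of the event that the history is `h` and the algorithm, which has not stopped so far,
stops on the maximum later. -/
noncomputable def R (n N : ℕ) (q : List ℕ → ℝ) (k : ℕ) (h : List ℕ) : ℝ :=
  ext k (avail N h) fun r => oy n N (mx (r ++ h)) * winFrom q (mx (r ++ h)) h r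

lemma winFrom_cons (q : List ℕ → ℝ) (m : ℕ) (h : List ℕ) (y : ℕ) (l : List ℕ) :
    winFrom q m h (y :: l) =
      q (y :: h) * (if y = m then 1 else 0) + (1 - q (y :: h)) * winFrom q m (y :: h) l := rfl

lemma winFrom_mem {q : List ℕ → ℝ} (hq : IsAlgorithm q) (m : ℕ) (l : List ℕ) :
    ∀ h, 0 ≤ winFrom q m h l ∧ winFrom q m h l ≤ 1 := by
  induction l with
  | nil => intro h; simp [winFrom]
  | cons y l ih =>
    intro h
    obtain ⟨h1, h2⟩ := ih (y :: h)
    obtain ⟨h3, h4⟩ := hq (y :: h)
    unfold winFrom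
    split_ifs
    · constructor <;> nlinarith
    · constructor <;> nlinarith

lemma R_nonneg {q : List ℕ → ℝ} (hq : IsAlgorithm q) (n N k : ℕ) (h : List ℕ) :
    0 ≤ R n N q k h := by
  unfold R
  apply ext_nonneg
  intro r
  exact mul_nonneg (oy_nonneg _ _ _) (winFrom_mem hq _ _ _).1

lemma R_zero (n N : ℕ) (q : List ℕ → ℝ) (h : List ℕ) : R n N q 0 h = 0 := by
  unfold R
  rw [ext_zero]
  simp [winFrom]

lemma R_succ (n N : ℕ) (q : List ℕ → ℝ) (k : ℕ) (h : List ℕ) :
    R n N q (k + 1) h = ∑ y ∈ avail N h,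
      (q (y :: h) * ww n N k y h + (1 - q (y :: h)) * R n N q k (y :: h)) := by
  unfold R
  rw [ext_succ]
  apply sum_congr rfl
  intro y _
  rw [← avail_cons]
  unfold ww
  rw [← ext_mul, ← ext_mul, ← ext_add]
  apply ext_congr
  intro r _ _ _
  have h1 : mx (y :: r ++ h) = mx (r ++ y :: h) := by
    apply mx_congr
    intro z
    simp only [List.cons_append, List.mem_cons, List.mem_append]
    tauto
  rw [h1, winFrom_cons]
  by_cases h2 : y = mx (r ++ y :: h)
  · rw [if_pos h2, if_pos h2.symm, ← h2]
    ring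
  · rw [if_neg h2, if_neg (Ne.symm h2)]
    ring

/-! ### Backward induction -/

lemma main_bound {n N : ℕ} {q : List ℕ → ℝ} (hq : IsAlgorithm q) (B : ℕ → ℝ)
    (hB0 : ∀ j, 0 ≤ B j)
    (hB : ∀ j : ℕ, 1 ≤ j → j < n →
      j * B (j + 1) + max (((j + 1 : ℕ) : ℝ) / n) (B (j + 1)) ≤ ((j : ℝ) + 1) * B j) (k : ℕ) :
    ∀ h : List ℕ, Valid N h → h.length + k = n → 1 ≤ h.length → n ≤ mx h →
      R n N q k h ≤ B h.length * G n h.length (mx h) := by
  induction k with
  | zero =>
    intro h _ _ _ _
    rw [R_zero]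
    exact mul_nonneg (hB0 _) (G_nonneg _ _ _)
  | succ k ih =>
    intro h hh hk hlen hmx
    rw [R_succ]
    set j := h.length with hj
    set x := mx h with hx
    have hjx : j ≤ x := length_le hh
    have hjn : j < n := by omega
    set V : ℝ := max (((j + 1 : ℕ) : ℝ) / n) (B (j + 1)) with hV
    have hV0 : 0 ≤ V := le_max_of_le_right (hB0 _)
    have hterm : ∀ y ∈ avail N h,
        q (y :: h) * ww n N k y h + (1 - q (y :: h)) * R n N q k (y :: h) ≤
          (if x < y then V * G n (j + 1) y else 0) +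
            (if y ≤ x then B (j + 1) * G n (j + 1) x else 0) := by
      intro y hy
      have hv := valid_cons hh hy
      have h1 := ww_le (n := n) (k := k) hv (by omega)
      have h2 := ih (y :: h) hv (by simp only [List.length_cons]; omega)
        (by simp) (by rw [mx_cons]; exact le_max_of_le_right hmx)
      rw [List.length_cons, mx_cons] at h2
      obtain ⟨h3, h4⟩ := hq (y :: h)
      have hG := G_nonneg n (j + 1) y
      by_cases hlt : x < y
      · rw [if_pos hlt, if_neg (by omega), add_zero]
        rw [if_pos hlt] at h1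
        rw [max_eq_left hlt.le] at h2
        have h5 : ww n N k y h ≤ V * G n (j + 1) y :=
          h1.trans (mul_le_mul_of_nonneg_right (le_max_left _ _) hG)
        have h6 : R n N q k (y :: h) ≤ V * G n (j + 1) y :=
          h2.trans (mul_le_mul_of_nonneg_right (le_max_right _ _) hG)
        nlinarith
      · rw [if_neg hlt, if_pos (by omega), zero_add]
        rw [if_neg hlt] at h1
        rw [max_eq_right (by omega)] at h2
        have h5 := mul_nonneg (hB0 (j + 1)) (G_nonneg n (j + 1) x)
        nlinarith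
    refine (sum_le_sum hterm).trans ?_
    rw [sum_add_distrib, ← sum_filter, ← sum_filter]
    have hjR : (0 : ℝ) < j := by exact_mod_cast hlen
    have hd : (0 : ℝ) < x.descFactorial j := by exact_mod_cast Nat.descFactorial_pos.2 hjx
    have hGx : G n j x = 1 / (j * x.descFactorial j) := by
      unfold G
      rw [if_pos hmx]
    have hfirst : ∑ y ∈ (avail N h).filter (fun y => x < y), V * G n (j + 1) y ≤
        V * (1 / ((j : ℝ) + 1) * (1 / (j * x.descFactorial j))) := by
      rw [← mul_sum]
      apply mul_le_mul_of_nonneg_left _ hV0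
      have h1 : (avail N h).filter (fun y => x < y) ⊆ Ico (x + 1) (N + 1) := by
        intro y hy
        rw [mem_filter, mem_avail, mem_Icc] at hy
        rw [mem_Ico]
        omega
      refine (sum_le_sum_of_subset_of_nonneg h1 fun _ _ _ => G_nonneg _ _ _).trans ?_
      have h2 : ∑ y ∈ Ico (x + 1) (N + 1), G n (j + 1) y =
          ∑ M ∈ Ico x N, 1 / ((j : ℝ) + 1) * (1 / (M + 1).descFactorial (j + 1)) := by
        rw [sum_Ico_add' (fun y => G n (j + 1) y) x N 1 |>.symm]
        apply sum_congr rfl
        intro M hM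
        rw [mem_Ico] at hM
        unfold G
        rw [if_pos (by omega), one_div_mul_one_div]
        push_cast
        rfl
      rw [h2, ← mul_sum]
      exact mul_le_mul_of_nonneg_left (tel_sum hlen hjx _) (by positivity)
    have hsecond : ∑ y ∈ (avail N h).filter (fun y => y ≤ x), B (j + 1) * G n (j + 1) x ≤
        B (j + 1) * (1 / ((j : ℝ) + 1) * (1 / x.descFactorial j)) := by
      have hxN : x ≤ N := by
        have : mx h ∈ h := mx_mem (by omega)
        exact (mem_Icc.1 (hh.2 _ this)).2
      rw [sum_const, nsmul_eq_mul, card_avail_le hh le_rfl hxN, ← hj, ← hx]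
      rcases Nat.eq_or_lt_of_le hjx with h0 | h0
      · rw [← h0, Nat.sub_self, Nat.cast_zero, zero_mul]
        have := hB0 (j + 1)
        positivity
      · unfold G
        rw [if_pos hmx]
        have h1 : (x.descFactorial (j + 1) : ℝ) = ((x - j : ℕ) : ℝ) * x.descFactorial j := by
          rw [Nat.descFactorial_succ]
          push_cast
          ring
        have h2 : (0 : ℝ) < ((x - j : ℕ) : ℝ) := by
          have : 0 < x - j := by omega
          exact_mod_cast this
        rw [h1]
        apply le_of_eq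
        push_cast
        field_simp
    refine (add_le_add hfirst hsecond).trans ?_
    rw [hGx]
    have h1 := hB j hlen hjn
    calc V * (1 / ((j : ℝ) + 1) * (1 / (j * x.descFactorial j))) +
          B (j + 1) * (1 / ((j : ℝ) + 1) * (1 / x.descFactorial j))
        = (j * B (j + 1) + V) * (1 / (((j : ℝ) + 1) * (j * x.descFactorial j))) := by
          field_simp
          ring
      _ ≤ (((j : ℝ) + 1) * B j) * (1 / (((j : ℝ) + 1) * (j * x.descFactorial j))) :=
          mul_le_mul_of_nonneg_right h1 (by positivity)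
      _ = B j * (1 / (j * x.descFactorial j)) := by
          field_simp

/-! ### The first phase -/

lemma phase {n N : ℕ} {q : List ℕ → ℝ} (hq : IsAlgorithm q) (m k : ℕ) :
    ∀ h : List ℕ, Valid N h → h.length + (k + m) = n →
      R n N q (k + m) h ≤
        (∑ i ∈ range k, ext (i + 1) (avail N h) fun r =>
          ((h.length + (i + 1) : ℕ) : ℝ) / n * G n (h.length + (i + 1)) (mx (r ++ h))) +
        ext k (avail N h) fun r => R n N q m (r.reverse ++ h) := by
  induction k with
  | zero =>
    intro h _ _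
    rw [range_zero, sum_empty, ext_zero, Nat.zero_add, zero_add]
    exact le_rfl
  | succ k ih =>
    intro h hh hlen
    have e : k + 1 + m = (k + m) + 1 := by omega
    rw [e, R_succ]
    have hterm : ∀ y ∈ avail N h,
        q (y :: h) * ww n N (k + m) y h + (1 - q (y :: h)) * R n N q (k + m) (y :: h) ≤
          ((h.length + 1 : ℕ) : ℝ) / n * G n (h.length + 1) (mx (y :: h)) +
          ((∑ i ∈ range k, ext (i + 1) ((avail N h).erase y) fun r =>
            ((h.length + (i + 2) : ℕ) : ℝ) / n * G n (h.length + (i + 2)) (mx (y :: r ++ h))) +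
          ext k ((avail N h).erase y) fun r => R n N q m ((y :: r).reverse ++ h)) := by
      intro y hy
      have hv := valid_cons hh hy
      have h1 := ww_le' (n := n) (k := k + m) hv (by omega)
      have h2 := ih (y :: h) hv (by simp only [List.length_cons]; omega)
      rw [avail_cons] at h2
      obtain ⟨h3, h4⟩ := hq (y :: h)
      have h5 := ww_nonneg n N (k + m) y h
      have h6 := R_nonneg hq n N (k + m) (y :: h)
      have h7 : q (y :: h) * ww n N (k + m) y h + (1 - q (y :: h)) * R n N q (k + m) (y :: h) ≤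
          ww n N (k + m) y h + R n N q (k + m) (y :: h) := by nlinarith
      refine h7.trans (add_le_add h1 (h2.trans (le_of_eq ?_)))
      congr 1
      · apply sum_congr rfl
        intro i _
        apply ext_congr
        intro r _ _ _
        have e1 : (y :: h).length + (i + 1) = h.length + (i + 2) := by
          rw [List.length_cons]
          omega
        have e2 : mx (r ++ y :: h) = mx (y :: r ++ h) := by
          apply mx_congr
          intro z
          simp only [List.cons_append, List.mem_cons, List.mem_append]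
          tauto
        rw [e1, e2]
      · apply ext_congr
        intro r _ _ _
        rw [List.reverse_cons, List.append_assoc, List.singleton_append]
    refine (sum_le_sum hterm).trans (le_of_eq ?_)
    rw [sum_add_distrib, sum_add_distrib, sum_range_succ', sum_comm]
    have e3 : ∀ i ∈ range k, ∑ y ∈ avail N h, (ext (i + 1) ((avail N h).erase y) fun r =>
            ((h.length + (i + 2) : ℕ) : ℝ) / n * G n (h.length + (i + 2)) (mx (y :: r ++ h))) =
        ext (i + 1 + 1) (avail N h) fun r =>
          ((h.length + (i + 1 + 1) : ℕ) : ℝ) / n * G n (h.length + (i + 1 + 1)) (mx (r ++ h)) :=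
      fun i _ => by rw [ext_succ (i + 1)]
    rw [sum_congr rfl e3]
    have e4 : (ext (0 + 1) (avail N h) fun r =>
          ((h.length + (0 + 1) : ℕ) : ℝ) / n * G n (h.length + (0 + 1)) (mx (r ++ h))) =
        ∑ y ∈ avail N h, ((h.length + 1 : ℕ) : ℝ) / n * G n (h.length + 1) (mx (y :: h)) := by
      rw [ext_succ]
      rfl
    rw [e4, ext_succ]
    ring

/-- The total weight of the histories of length `j`. -/
lemma sum_G {n N j : ℕ} (hj : 1 ≤ j) (hjn : j ≤ n) :
    (ext j (Icc 1 N) fun r => G n j (mx r)) = ∑ x ∈ Ico n (N + 1), (1 : ℝ) / x := by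
  have hA : ∀ x ≤ N, ((Icc 1 N).filter fun z => z ≤ x).card = x := by
    intro x hx
    have : (Icc 1 N).filter (fun z => z ≤ x) = Icc 1 x := by
      ext z
      rw [mem_filter, mem_Icc, mem_Icc]
      omega
    rw [this, Nat.card_Icc, Nat.add_sub_cancel]
  have h1 : (ext j (Icc 1 N) fun r => G n j (mx r)) =
      ext j (Icc 1 N) fun r => ∑ x ∈ Ico n (N + 1), (1 / (j * x.descFactorial j : ℝ)) *
        ((if ∀ z ∈ r, z ≤ x then 1 else 0) + (-1) * (if ∀ z ∈ r, z ≤ x - 1 then 1 else 0)) := by
    apply ext_congr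
    intro r hr1 hr2 hr3
    simp only [← mx_le]
    have hv : Valid N r := ⟨hr2, hr3⟩
    have hm := length_le hv
    have hmem : mx r ∈ r := mx_mem (by omega)
    have hmN : mx r ≤ N := (mem_Icc.1 (hr3 _ hmem)).2
    unfold G
    by_cases hn : n ≤ mx r
    · rw [if_pos hn, sum_eq_single (mx r)]
      · rw [if_pos le_rfl, if_neg (by omega)]
        ring
      · intro x hx hne
        rw [mem_Ico] at hx
        by_cases h2 : mx r ≤ x
        · rw [if_pos h2, if_pos (by omega)]
          ring
        · rw [if_neg h2, if_neg (by omega)]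
          ring
      · intro h2
        exfalso
        apply h2
        rw [mem_Ico]
        omega
    · rw [if_neg hn]
      symm
      apply sum_eq_zero
      intro x hx
      rw [mem_Ico] at hx
      rw [if_pos (by omega), if_pos (by omega)]
      ring
  rw [h1, ext_sum]
  apply sum_congr rfl
  intro x hx
  rw [mem_Ico] at hx
  rw [ext_mul, ext_add, ext_mul, ext_ind, ext_ind, hA x (by omega), hA (x - 1) (by omega)]
  obtain ⟨i, rfl⟩ : ∃ i, j = i + 1 := ⟨j - 1, by omega⟩
  obtain ⟨w, rfl⟩ : ∃ w, x = w + 1 := ⟨x - 1, by omega⟩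
  have hd : (0 : ℝ) < w.descFactorial i := by
    exact_mod_cast Nat.descFactorial_pos.2 (by omega)
  have e1 : ((w + 1).descFactorial (i + 1) : ℝ) = (w + 1) * w.descFactorial i := by
    rw [Nat.succ_descFactorial_succ]
    push_cast
    ring
  have e2 : (w.descFactorial (i + 1) : ℝ) = (w - i) * w.descFactorial i := by
    rw [Nat.descFactorial_succ, Nat.cast_mul, Nat.cast_sub (by omega)]
  rw [Nat.add_sub_cancel, e1, e2]
  push_cast
  have hw : (0 : ℝ) < (w : ℝ) + 1 := by positivity
  have hi : (0 : ℝ) < (i : ℝ) + 1 := by positivity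
  field_simp
  ring

/-- The weight of a history with a small maximum. -/
lemma R_small {n N : ℕ} {q : List ℕ → ℝ} (hq : IsAlgorithm q) {m : ℕ} {h : List ℕ}
    (hh : Valid N h) (hlen : h.length + m = n) (hj : 1 ≤ h.length) (hmx : mx h < n) :
    R n N q m h ≤ 1 / (h.length * n.descFactorial h.length) := by
  have h1 : R n N q m h ≤ ext m (avail N h) fun r => ∑ M ∈ Ico n (N + 1),
      if ∀ z ∈ r, z ≤ M then (1 : ℝ) / (M + 1).descFactorial (n + 1) else 0 := by
    unfold R
    apply ext_le
    intro r _ _ _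
    have h2 := (winFrom_mem hq (mx (r ++ h)) r h).2
    have h3 := oy_nonneg n N (mx (r ++ h))
    calc oy n N (mx (r ++ h)) * winFrom q (mx (r ++ h)) h r ≤ oy n N (mx (r ++ h)) * 1 :=
          mul_le_mul_of_nonneg_left h2 h3
      _ ≤ _ := by
          rw [mul_one]
          unfold oy
          apply sum_le_sum
          intro M _
          by_cases h4 : mx (r ++ h) ≤ M
          · rw [if_pos h4, if_pos]
            intro z hz
            exact (le_mx (List.mem_append_left _ hz)).trans h4
          · rw [if_neg h4]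
            split_ifs
            · positivity
            · exact le_rfl
  refine h1.trans ?_
  rw [ext_sum]
  refine le_trans (le_of_eq ?_) (tel_sum hj (by omega : h.length ≤ n) (N + 1))
  apply sum_congr rfl
  intro M hM
  rw [mem_Ico] at hM
  rw [ext_ind, card_avail_le hh (by omega) (by omega)]
  have h2 := Nat.descFactorial_mul_descFactorial (n := M) (show h.length ≤ n by omega)
  have h3 : n - h.length = m := by omega
  rw [h3] at h2
  have h4 : ((M - h.length).descFactorial m : ℝ) * M.descFactorial h.length =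
      M.descFactorial n := by exact_mod_cast h2
  have e1 : ((M + 1).descFactorial (n + 1) : ℝ) = (M + 1) * M.descFactorial n := by
    rw [Nat.succ_descFactorial_succ]
    push_cast
    ring
  have e2 : ((M + 1).descFactorial (h.length + 1) : ℝ) = (M + 1) * M.descFactorial h.length := by
    rw [Nat.succ_descFactorial_succ]
    push_cast
    ring
  have h5 : (0 : ℝ) < M.descFactorial h.length := by
    exact_mod_cast Nat.descFactorial_pos.2 (by omega)
  have h6 : (0 : ℝ) < M.descFactorial n := by exact_mod_cast Nat.descFactorial_pos.2 (by omega)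
  rw [e1, e2, ← h4]
  have h8 : ((M - h.length).descFactorial m : ℝ) ≠ 0 := by
    intro h0
    rw [h0, zero_mul] at h4
    exact h6.ne h4
  have hM1 : (0 : ℝ) < (M : ℝ) + 1 := by positivity
  field_simp

/-! ### The secretary recursion -/

/-- An upper bound for the value of the classical secretary problem. -/
noncomputable def hh (t : ℝ) : ℝ := if Real.exp (-1) ≤ t then -(t * Real.log t) else Real.exp (-1)

lemma neg_mul_log_le {t : ℝ} (ht : 0 < t) : -(t * Real.log t) ≤ Real.exp (-1) := by
  have he : 0 < Real.exp (-1) := Real.exp_pos _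
  have h1 : Real.log (Real.exp (-1) / t) ≤ Real.exp (-1) / t - 1 :=
    Real.log_le_sub_one_of_pos (by positivity)
  rw [Real.log_div he.ne' ht.ne', Real.log_exp] at h1
  have h2 : t * (-1 - Real.log t) ≤ t * (Real.exp (-1) / t - 1) :=
    mul_le_mul_of_nonneg_left h1 ht.le
  have h3 : t * (Real.exp (-1) / t - 1) = Real.exp (-1) - t := by
    field_simp
  rw [h3] at h2
  linarith

lemma hh_le {t : ℝ} : hh t ≤ Real.exp (-1) := by
  unfold hh
  split_ifs with h
  · exact neg_mul_log_le (lt_of_lt_of_le (Real.exp_pos _) h)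
  · exact le_rfl

lemma le_hh {t : ℝ} (ht : 0 < t) : -(t * Real.log t) ≤ hh t := by
  unfold hh
  split_ifs with h
  · exact le_rfl
  · exact neg_mul_log_le ht

lemma hh_anti {s t : ℝ} (hs : 0 < s) (hst : s ≤ t) : hh t ≤ hh s := by
  by_cases h : Real.exp (-1) ≤ s
  · have h2 : Real.exp (-1) ≤ t := h.trans hst
    have ht : 0 < t := hs.trans_le hst
    unfold hh
    rw [if_pos h, if_pos h2]
    have h3 := Real.one_sub_inv_le_log_of_pos (show 0 < t / s by positivity)
    rw [Real.log_div ht.ne' hs.ne', inv_div] at h3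
    have h4 : (-1 : ℝ) ≤ Real.log s := by
      rw [Real.le_log_iff_exp_le hs]
      exact h
    have h5 : t * (1 - s / t) ≤ t * (Real.log t - Real.log s) :=
      mul_le_mul_of_nonneg_left h3 ht.le
    have h6 : t * (1 - s / t) = t - s := by field_simp
    rw [h6] at h5
    nlinarith
  · have : hh s = Real.exp (-1) := by
      unfold hh
      rw [if_neg h]
    rw [this]
    exact hh_le

/-- The bound for the value of the secretary problem. -/
noncomputable def BB (n j : ℕ) : ℝ := max 0 (hh ((j : ℝ) / n) + 1 / n)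

lemma hh_nonneg {t : ℝ} (h1 : t ≤ 1) : 0 ≤ hh t := by
  unfold hh
  split_ifs with h
  · have h0 : 0 < t := lt_of_lt_of_le (Real.exp_pos _) h
    have := Real.log_nonpos h0.le h1
    nlinarith
  · exact (Real.exp_pos _).le

lemma BB_eq {n j : ℕ} (hn : 1 ≤ n) (hj : j ≤ n) : BB n j = hh ((j : ℝ) / n) + 1 / n := by
  have hnR : (0 : ℝ) < n := by exact_mod_cast hn
  unfold BB
  apply max_eq_right
  have h1 : (j : ℝ) / n ≤ 1 := by
    rw [div_le_one hnR]
    exact_mod_cast hj
  have := hh_nonneg h1
  positivity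

lemma BB_step {n j : ℕ} (hj : 1 ≤ j) (hjn : j < n) :
    j * BB n (j + 1) + max (((j + 1 : ℕ) : ℝ) / n) (BB n (j + 1)) ≤ ((j : ℝ) + 1) * BB n j := by
  have hn : 1 ≤ n := by omega
  have hnR : (0 : ℝ) < n := by exact_mod_cast hn
  have hjR : (0 : ℝ) < j := by exact_mod_cast hj
  rw [BB_eq hn (by omega), BB_eq hn hjn.le]
  set t : ℝ := (j : ℝ) / n with ht
  set t' : ℝ := ((j + 1 : ℕ) : ℝ) / n with ht'
  have ht0 : 0 < t := by positivity
  have htt : t' = t + 1 / n := by
    rw [ht', ht]
    push_cast
    ring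
  have hle : t ≤ t' := by
    rw [htt]
    have : (0 : ℝ) < 1 / n := by positivity
    linarith
  have ht'0 : 0 < t' := ht0.trans_le hle
  have hanti := hh_anti ht0 hle
  rcases le_total t' (hh t' + 1 / n) with hc | hc
  · rw [max_eq_right hc]
    nlinarith
  · rw [max_eq_left hc]
    -- `t' > 1 / e`
    have h1 : Real.exp (-1) ≤ t' := by
      by_contra hcon
      have h2 : hh t' = Real.exp (-1) := by
        unfold hh
        rw [if_neg hcon]
      rw [h2] at hc
      have : (0 : ℝ) < 1 / n := by positivity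
      linarith
    have h2 : hh t' = -(t' * Real.log t') := by
      unfold hh
      rw [if_pos h1]
    have h3 := le_hh ht0
    have h4 := Real.one_sub_inv_le_log_of_pos (show 0 < t' / t by positivity)
    rw [Real.log_div ht'0.ne' ht0.ne', inv_div] at h4
    have h5 : t / t' = j / (j + 1) := by
      rw [ht, ht']
      push_cast
      field_simp
    rw [h5] at h4
    have h6 : 1 ≤ ((j : ℝ) + 1) * (Real.log t' - Real.log t) := by
      have h7 : ((j : ℝ) + 1) * (1 - j / (j + 1)) ≤ ((j : ℝ) + 1) * (Real.log t' - Real.log t) :=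
        mul_le_mul_of_nonneg_left h4 (by positivity)
      have h8 : ((j : ℝ) + 1) * (1 - j / (j + 1)) = 1 := by
        field_simp
        ring
      rwa [h8] at h7
    have h7 : (j : ℝ) * t' = (j + 1) * t := by
      rw [ht, ht']
      push_cast
      ring
    have h8 : t' = (j + 1) * (1 / n) := by
      rw [ht']
      push_cast
      ring
    have h9 : t = j * (1 / n) := by
      rw [ht]
      ring
    rw [h2]
    have h10 : t ≤ t * (((j : ℝ) + 1) * (Real.log t' - Real.log t)) := by
      have := mul_le_mul_of_nonneg_left h6 ht0.le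
      linarith
    calc (j : ℝ) * (-(t' * Real.log t') + 1 / n) + t'
        = -((j * t') * Real.log t') + j * (1 / n) + (j + 1) * (1 / n) := by
          rw [← h8]
          ring
      _ = -(((j + 1) * t) * Real.log t') + t + (j + 1) * (1 / n) := by rw [h7, ← h9]
      _ ≤ ((j : ℝ) + 1) * (-(t * Real.log t) + 1 / n) := by nlinarith
      _ ≤ ((j : ℝ) + 1) * (hh t + 1 / n) := by
          apply mul_le_mul_of_nonneg_left _ (by positivity)
          linarith

lemma BB_le {n j : ℕ} (hn : 1 ≤ n) : BB n j ≤ Real.exp (-1) + 1 / n := by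
  have hnR : (0 : ℝ) < n := by exact_mod_cast hn
  unfold BB
  apply max_le
  · have := Real.exp_pos (-1)
    positivity
  · have := hh_le (t := (j : ℝ) / n)
    linarith

/-- The bound for the total weight of the event that the algorithm wins. -/
lemma total_bound {n N : ℕ} {q : List ℕ → ℝ} (hq : IsAlgorithm q) {m₀ : ℕ} (hm₀ : 1 ≤ m₀)
    (hmn : m₀ ≤ n) :
    R n N q n [] ≤ ((m₀ : ℝ) ^ 2 / n + (Real.exp (-1) + 1 / n)) *
      (∑ x ∈ Ico n (N + 1), (1 : ℝ) / x) + 1 / m₀ := by
  have hn : 1 ≤ n := hm₀.trans hmn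
  have hnR : (0 : ℝ) < n := by exact_mod_cast hn
  have hm₀R : (0 : ℝ) < m₀ := by exact_mod_cast hm₀
  set Hs : ℝ := ∑ x ∈ Ico n (N + 1), (1 : ℝ) / x with hHs
  have hHs0 : 0 ≤ Hs := sum_nonneg fun x _ => by positivity
  have hv : Valid N [] := ⟨List.nodup_nil, by simp⟩
  have hav : avail N [] = Icc 1 N := by
    unfold avail
    simp
  have h1 := phase (n := n) hq (n - m₀) m₀ [] hv (by simp; omega)
  have e : m₀ + (n - m₀) = n := by omega
  rw [e, hav] at h1
  refine h1.trans ?_
  have hA : (∑ i ∈ range m₀, ext (i + 1) (Icc 1 N) fun r =>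
      ((([] : List ℕ).length + (i + 1) : ℕ) : ℝ) / n *
        G n (([] : List ℕ).length + (i + 1)) (mx (r ++ []))) ≤ (m₀ : ℝ) ^ 2 / n * Hs := by
    calc _ ≤ ∑ i ∈ range m₀, (m₀ : ℝ) / n * Hs := by
          apply sum_le_sum
          intro i hi
          rw [mem_range] at hi
          have e2 : (ext (i + 1) (Icc 1 N) fun r =>
              ((([] : List ℕ).length + (i + 1) : ℕ) : ℝ) / n *
                G n (([] : List ℕ).length + (i + 1)) (mx (r ++ []))) =
              ext (i + 1) (Icc 1 N) fun r => ((i + 1 : ℕ) : ℝ) / n * G n (i + 1) (mx r) := by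
            apply ext_congr
            intro r _ _ _
            rw [List.length_nil, List.append_nil, Nat.zero_add]
          rw [e2, ext_mul, sum_G (by omega) (by omega)]
          apply mul_le_mul_of_nonneg_right _ hHs0
          apply div_le_div_of_nonneg_right _ hnR.le
          exact_mod_cast (by omega : i + 1 ≤ m₀)
      _ = (m₀ : ℝ) ^ 2 / n * Hs := by
          rw [sum_const, card_range, nsmul_eq_mul]
          ring
  have hBB0 : ∀ j, 0 ≤ BB n j := fun j => le_max_left _ _
  have hB : (ext m₀ (Icc 1 N) fun r => R n N q (n - m₀) (r.reverse ++ [])) ≤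
      (Real.exp (-1) + 1 / n) * Hs + 1 / m₀ := by
    have h2 : (ext m₀ (Icc 1 N) fun r => R n N q (n - m₀) (r.reverse ++ [])) ≤
        ext m₀ (Icc 1 N) fun r => (Real.exp (-1) + 1 / n) * G n m₀ (mx r) +
          (if ∀ z ∈ r, z ≤ n - 1 then 1 / ((m₀ : ℝ) * n.descFactorial m₀) else 0) := by
      apply ext_le
      intro r hr1 hr2 hr3
      have hvr : Valid N (r.reverse ++ []) := valid_append hv hr2 (by rw [hav]; exact hr3)
      rw [List.append_nil] at hvr ⊢
      have hlen : r.reverse.length = m₀ := by rw [List.length_reverse, hr1]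
      have hmr : mx r.reverse = mx r := mx_congr fun z => List.mem_reverse
      by_cases hc : n ≤ mx r
      · have h3 := main_bound hq (BB n) hBB0 (fun j hj hjn => BB_step hj hjn) (n - m₀) r.reverse
          hvr (by omega) (by omega) (by omega)
        rw [hlen, hmr] at h3
        have h4 : (0 : ℝ) ≤ if ∀ z ∈ r, z ≤ n - 1 then 1 / ((m₀ : ℝ) * n.descFactorial m₀) else 0 := by
          split_ifs
          · positivity
          · exact le_rfl
        have h5 := mul_le_mul_of_nonneg_right (BB_le (j := m₀) hn) (G_nonneg n m₀ (mx r))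
        linarith
      · have h3 := R_small hq hvr (by omega : r.reverse.length + (n - m₀) = n) (by omega)
          (by omega)
        rw [hlen] at h3
        rw [if_pos (mx_le.1 (by omega))]
        have h4 : 0 ≤ (Real.exp (-1) + 1 / n) * G n m₀ (mx r) :=
          mul_nonneg (by positivity) (G_nonneg _ _ _)
        linarith
    refine h2.trans ?_
    rw [ext_add, ext_mul, sum_G hm₀ hmn, ext_ind]
    have h3 : ((Icc 1 N).filter fun z => z ≤ n - 1).card ≤ n - 1 := by
      calc ((Icc 1 N).filter fun z => z ≤ n - 1).card ≤ (Icc 1 (n - 1)).card := by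
            apply card_le_card
            intro z hz
            rw [mem_filter, mem_Icc] at hz
            rw [mem_Icc]
            exact ⟨hz.1.1, hz.2⟩
        _ = n - 1 := by rw [Nat.card_Icc, Nat.add_sub_cancel]
    have h4 : (((Icc 1 N).filter fun z => z ≤ n - 1).card.descFactorial m₀ : ℝ) ≤
        n.descFactorial m₀ := by
      exact_mod_cast Nat.descFactorial_le m₀ (h3.trans (Nat.sub_le _ _))
    have h5 : (0 : ℝ) < n.descFactorial m₀ := by exact_mod_cast Nat.descFactorial_pos.2 hmn
    have h6 : 1 / ((m₀ : ℝ) * n.descFactorial m₀) *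
        (((Icc 1 N).filter fun z => z ≤ n - 1).card.descFactorial m₀ : ℝ) ≤ 1 / m₀ := by
      calc _ ≤ 1 / ((m₀ : ℝ) * n.descFactorial m₀) * n.descFactorial m₀ :=
            mul_le_mul_of_nonneg_left h4 (by positivity)
        _ = 1 / m₀ := by field_simp
    linarith
  calc _ ≤ (m₀ : ℝ) ^ 2 / n * Hs + ((Real.exp (-1) + 1 / n) * Hs + 1 / m₀) := add_le_add hA hB
    _ = _ := by ring

/-! ### The instance -/

/-- The normalising constant. -/
noncomputable def ZZ (n N : ℕ) : ℝ := ∑ M ∈ Ico n (N + 1), (1 : ℝ) / (M + 1)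

/-- The instance. -/
noncomputable def DD (n N : ℕ) (S : Finset ℕ) : ℝ :=
  if S ∈ (Icc 1 N).powersetCard n then
    (ZZ n N)⁻¹ * (n.factorial * oy n N (S.sup id)) else 0

lemma ZZ_pos {n N : ℕ} (hnN : n ≤ N) : 0 < ZZ n N := by
  unfold ZZ
  apply sum_pos
  · intro M _
    positivity
  · exact ⟨n, by rw [mem_Ico]; omega⟩

lemma isInstance_DD {n N : ℕ} (hnN : n ≤ N) : IsInstance n N (DD n N) := by
  have hZ := ZZ_pos hnN
  refine ⟨fun S => ?_, fun S hS => ?_, ?_⟩
  · unfold DD
    split_ifs
    · have := oy_nonneg n N (S.sup id)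
      positivity
    · exact le_rfl
  · by_contra hcon
    apply hS
    unfold DD
    rw [if_neg hcon]
  · have h1 : ∀ S ∈ (Icc 1 N).powersetCard n, DD n N S =
        (ZZ n N)⁻¹ * (n.factorial * oy n N (S.sup id)) := by
      intro S hS
      unfold DD
      rw [if_pos hS]
    rw [sum_congr rfl h1, ← mul_sum, ← mul_sum]
    have h2 : (n.factorial : ℝ) * ∑ S ∈ (Icc 1 N).powersetCard n, oy n N (S.sup id) = ZZ n N := by
      unfold oy ZZ
      rw [sum_comm, mul_sum]
      apply sum_congr rfl
      intro M hM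
      rw [mem_Ico] at hM
      rw [← sum_filter, sum_const, nsmul_eq_mul]
      have h3 : ((Icc 1 N).powersetCard n).filter (fun S => S.sup id ≤ M) =
          (Icc 1 M).powersetCard n := by
        ext S
        rw [mem_filter, mem_powersetCard, mem_powersetCard]
        constructor
        · rintro ⟨⟨h4, h5⟩, h6⟩
          refine ⟨fun z hz => ?_, h5⟩
          rw [mem_Icc]
          exact ⟨(mem_Icc.1 (h4 hz)).1, (Finset.le_sup (f := id) hz).trans h6⟩
        · rintro ⟨h4, h5⟩
          refine ⟨⟨fun z hz => ?_, h5⟩, Finset.sup_le fun z hz => (mem_Icc.1 (h4 hz)).2⟩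
          have := mem_Icc.1 (h4 hz)
          rw [mem_Icc]
          omega
      rw [h3, card_powersetCard, Nat.card_Icc, Nat.add_sub_cancel, Nat.succ_descFactorial_succ]
      have h4 : (n.factorial : ℝ) * M.choose n = M.descFactorial n := by
        rw [Nat.descFactorial_eq_factorial_mul_choose]
        push_cast
        ring
      rw [← mul_assoc, h4]
      have h5 : (0 : ℝ) < M.descFactorial n := by
        exact_mod_cast Nat.descFactorial_pos.2 hM.1
      push_cast
      field_simp
    rw [h2, inv_mul_cancel₀ hZ.ne']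

lemma winProb_eq {n N : ℕ} (q : List ℕ → ℝ) :
    winProb n N (DD n N) q = (ZZ n N)⁻¹ * R n N q n [] := by
  have hav : avail N [] = Icc 1 N := by
    unfold avail
    simp
  unfold R
  rw [hav, ← sum_orders_eq_ext]
  unfold winProb
  have hmaps : ∀ s ∈ orders n (Icc 1 N), univ.image s ∈ (Icc 1 N).powersetCard n := by
    intro s hs
    unfold orders at hs
    rw [mem_filter, Fintype.mem_piFinset] at hs
    rw [mem_powersetCard]
    refine ⟨?_, ?_⟩
    · intro z hz
      obtain ⟨i, _, rfl⟩ := mem_image.1 hz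
      exact hs.1 i
    · rw [card_image_of_injective _ hs.2, card_univ, Fintype.card_fin]
  rw [← sum_fiberwise_of_maps_to hmaps, mul_sum]
  apply sum_congr rfl
  intro S hS
  unfold DD
  rw [if_pos hS]
  have hfib : (orders n (Icc 1 N)).filter (fun s => univ.image s = S) = orders n S := by
    rw [mem_powersetCard] at hS
    ext s
    unfold orders
    rw [mem_filter, mem_filter, mem_filter, Fintype.mem_piFinset, Fintype.mem_piFinset]
    constructor
    · rintro ⟨⟨_, h2⟩, h3⟩
      refine ⟨fun i => ?_, h2⟩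
      rw [← h3]
      exact mem_image_of_mem _ (mem_univ _)
    · rintro ⟨h1, h2⟩
      refine ⟨⟨fun i => hS.1 (h1 i), h2⟩, ?_⟩
      apply eq_of_subset_of_card_le
      · intro z hz
        obtain ⟨i, _, rfl⟩ := mem_image.1 hz
        exact h1 i
      · rw [card_image_of_injective _ h2, card_univ, Fintype.card_fin, hS.2]
  rw [hfib, sum_div, mul_sum, mul_sum]
  apply sum_congr rfl
  intro s hs
  have hsup : S.sup id = mx (List.ofFn s ++ []) := by
    rw [List.append_nil]
    apply mx_toFinset
    intro z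
    rw [← hfib, mem_filter] at hs
    rw [List.mem_ofFn, ← hs.2]
    simp
  rw [hsup]
  have hf : (0 : ℝ) < n.factorial := by exact_mod_cast n.factorial_pos
  field_simp

lemma Hs_le {n N : ℕ} (hn : 1 ≤ n) :
    (∑ x ∈ Ico n (N + 1), (1 : ℝ) / x) ≤ ZZ n N + 1 / n := by
  unfold ZZ
  rw [sum_Ico_eq_sum_range, sum_Ico_eq_sum_range]
  have h : ∀ k : ℕ, ∑ i ∈ range k, (1 : ℝ) / ((n + i : ℕ) : ℝ) + 1 / ((n + k : ℕ) : ℝ) =
      ∑ i ∈ range k, (1 : ℝ) / (((n + i : ℕ) : ℝ) + 1) + 1 / n := by
    intro k
    induction k with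
    | zero => simp
    | succ k ih =>
      rw [sum_range_succ, sum_range_succ]
      have e : ((n + (k + 1) : ℕ) : ℝ) = ((n + k : ℕ) : ℝ) + 1 := by push_cast; ring
      rw [e]
      linarith
  have h1 := h (N + 1 - n)
  have h2 : (0 : ℝ) ≤ 1 / ((n + (N + 1 - n) : ℕ) : ℝ) := by positivity
  linarith

/-- **Theorem.** For all `δ, ε > 0` and all sufficiently large `n` there is an instance on `n`-subsets
of `{1, …, N}` with `N ≤ (1 + δ) n` under which no online (cardinal, randomized) algorithm wins with
probability more than `1/e + ε`. -/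
theorem result (δ ε : ℝ) (hδ : 0 < δ) (hε : 0 < ε) :
    ∃ n₀ : ℕ, ∀ n ≥ n₀, ∃ N : ℕ, (N : ℝ) ≤ (1 + δ) * n ∧
      ∃ D : Finset ℕ → ℝ, IsInstance n N D ∧
        ∀ q : List ℕ → ℝ, IsAlgorithm q → winProb n N D q ≤ Real.exp (-1) + ε := by
  set c : ℝ := δ / (2 + δ) with hc
  have hc0 : 0 < c := by positivity
  obtain ⟨m₁, hm₁⟩ := exists_nat_ge (2 / (c * ε))
  set m₀ : ℕ := m₁ + 1 with hm₀
  have hm₀R : 2 / (c * ε) ≤ (m₀ : ℝ) := by
    rw [hm₀]
    push_cast
    linarith
  have hm₀pos : (0 : ℝ) < m₀ := by
    rw [hm₀]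
    positivity
  obtain ⟨n₁, hn₁⟩ := exists_nat_ge (2 * (((m₀ : ℝ) ^ 2 + 1) + ((m₀ : ℝ) ^ 2 + 2) / c) / ε)
  refine ⟨max n₁ m₀, fun n hn => ?_⟩
  have hn1 : n₁ ≤ n := (le_max_left _ _).trans hn
  have hn2 : m₀ ≤ n := (le_max_right _ _).trans hn
  have hnpos : 1 ≤ n := by omega
  have hnR : (0 : ℝ) < n := by exact_mod_cast hnpos
  have hn1R : (1 : ℝ) ≤ n := by exact_mod_cast hnpos
  set N : ℕ := ⌊(1 + δ) * (n : ℝ)⌋₊ with hN
  have hN1 : (N : ℝ) ≤ (1 + δ) * n := Nat.floor_le (by positivity)
  have hN2 : (1 + δ) * (n : ℝ) < N + 1 := Nat.lt_floor_add_one _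
  have hnN : n ≤ N := by
    apply Nat.le_floor
    nlinarith
  refine ⟨N, hN1, DD n N, isInstance_DD hnN, fun q hq => ?_⟩
  rw [winProb_eq]
  have hZpos := ZZ_pos hnN
  have hZc : c ≤ ZZ n N := by
    have h1 : ∑ _M ∈ Ico n (N + 1), (1 : ℝ) / (N + 1) ≤ ZZ n N := by
      unfold ZZ
      apply sum_le_sum
      intro M hM
      rw [mem_Ico] at hM
      apply one_div_le_one_div_of_le (by positivity)
      have : (M : ℝ) ≤ N := by exact_mod_cast (by omega : M ≤ N)
      linarith
    rw [sum_const, Nat.card_Ico, nsmul_eq_mul, Nat.cast_sub (by omega)] at h1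
    push_cast at h1
    refine le_trans ?_ h1
    rw [mul_one_div, hc, div_le_div_iff₀ (by positivity) (by positivity)]
    nlinarith
  have hT := total_bound (N := N) hq (by omega : 1 ≤ m₀) hn2
  have hHs := Hs_le (N := N) hnpos
  set Hs : ℝ := ∑ x ∈ Ico n (N + 1), (1 : ℝ) / x with hHsdef
  set K : ℝ := (m₀ : ℝ) ^ 2 / n + (Real.exp (-1) + 1 / n) with hK
  have hK0 : 0 ≤ K := by positivity
  have he1 : Real.exp (-1) ≤ 1 := Real.exp_le_one_iff.2 (by norm_num)
  have he0 : 0 < Real.exp (-1) := Real.exp_pos _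
  have hKle : K ≤ (m₀ : ℝ) ^ 2 + 2 := by
    have h1 : (m₀ : ℝ) ^ 2 / n ≤ (m₀ : ℝ) ^ 2 := div_le_self (by positivity) hn1R
    have h2 : (1 : ℝ) / n ≤ 1 := by
      rw [div_le_one hnR]
      exact hn1R
    linarith
  have hinv : (ZZ n N)⁻¹ ≤ c⁻¹ := inv_anti₀ hc0 hZc
  calc (ZZ n N)⁻¹ * R n N q n [] ≤ (ZZ n N)⁻¹ * (K * (ZZ n N + 1 / n) + 1 / m₀) := by
        apply mul_le_mul_of_nonneg_left _ (by positivity)
        refine hT.trans ?_
        have := mul_le_mul_of_nonneg_left hHs hK0
        linarith
    _ = K + (ZZ n N)⁻¹ * (K * (1 / n) + 1 / m₀) := by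
        field_simp
        ring
    _ ≤ K + c⁻¹ * (((m₀ : ℝ) ^ 2 + 2) * (1 / n) + 1 / m₀) := by
        have h1 : K * (1 / n) + 1 / m₀ ≤ ((m₀ : ℝ) ^ 2 + 2) * (1 / n) + 1 / m₀ := by
          have := mul_le_mul_of_nonneg_right hKle (show (0 : ℝ) ≤ 1 / n by positivity)
          linarith
        have h2 : (0 : ℝ) ≤ K * (1 / n) + 1 / m₀ := by positivity
        have h3 := mul_le_mul hinv h1 h2 (by positivity)
        linarith
    _ ≤ Real.exp (-1) + ε := by
        have h1 : c⁻¹ * (1 / m₀) ≤ ε / 2 := by
          rw [← one_div, one_div_mul_one_div, div_le_iff₀ (by positivity)]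
          rw [div_le_iff₀ (by positivity)] at hm₀R
          nlinarith
        have h2 : 2 * (((m₀ : ℝ) ^ 2 + 1) + ((m₀ : ℝ) ^ 2 + 2) / c) / ε ≤ n :=
          hn₁.trans (by exact_mod_cast hn1)
        have h3 : (((m₀ : ℝ) ^ 2 + 1) + ((m₀ : ℝ) ^ 2 + 2) / c) * (1 / n) ≤ ε / 2 := by
          rw [div_le_iff₀ hε] at h2
          rw [mul_one_div, div_le_iff₀ hnR]
          linarith
        have h4 : K + c⁻¹ * (((m₀ : ℝ) ^ 2 + 2) * (1 / n) + 1 / m₀) =
            Real.exp (-1) + (((m₀ : ℝ) ^ 2 + 1) + ((m₀ : ℝ) ^ 2 + 2) / c) * (1 / n) +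
              c⁻¹ * (1 / m₀) := by
          rw [hK]
          ring
        rw [h4]
        linarith

end Pool.Agent.Results.MP_d38296_lc.LinearRange
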